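import Pool.Agent.helper62.VD.SpecL2
import Pool.Agent.helper57.VD.ASAD

/-!
# Project VD (MP_07c750_an), block A5, row ALST: re-expansion of a beam for one unit of time
-/

set_option autoImplicit false

open scoped ContDiff Topology InnerProductSpace ComplexConjugate ENNReal
open MeasureTheory Filter Set

namespace Pool.Agent.VD

open Pool.Agent.VQ (CH cmZ)

noncomputable section

theorem ALST_FHmul {d : ℕ} {Γ : Type} [Group Γ] [MulAction Γ (V d)] {Λ : Subgroup Γ} {F : Set (V d)} {f : V d → ℂ}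
    (hf : FH Λ F f) (c : ℂ) : FH Λ F (fun z => c * f z) := by
  obtain ⟨b, hb⟩ := hf.supp
  exact ⟨continuous_const.mul hf.cont, fun γ hγ z => by rw [hf.inv γ hγ], ⟨b, fun z hz h => hb z hz fun h0 => h (by rw [h0, mul_zero])⟩⟩

theorem ALST_FHsub {d : ℕ} {Γ : Type} [Group Γ] [MulAction Γ (V d)] {Λ : Subgroup Γ} {F : Set (V d)} {f g : V d → ℂ}
    (hf : FH Λ F f) (hg : FH Λ F g) : FH Λ F (fun z => f z - g z) := by
  obtain ⟨b, hb⟩ := hf.supp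
  obtain ⟨b', hb'⟩ := hg.supp
  refine ⟨hf.cont.sub hg.cont, fun γ hγ z => by rw [hf.inv γ hγ, hg.inv γ hγ], ⟨max b b', fun z hz h => ?_⟩⟩
  by_cases h0 : f z = 0
  · have h1 : g z ≠ 0 := fun h2 => h (by rw [h0, h2, sub_zero])
    exact (hb' z hz h1).trans (le_max_right _ _)
  · exact (hb z hz h0).trans (le_max_left _ _)

theorem ALST_nn0 {d : ℕ} (G : V d → V d →L[ℝ] V d) (F : Set (V d)) (f : V d → ℂ) : 0 ≤ nn G F f :=
  integral_nonneg fun z => by positivity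

theorem ALST_nnadd {d : ℕ} {Γ : Type} [Group Γ] [MulAction Γ (V d)] {Λ : Subgroup Γ} {G : V d → V d →L[ℝ] V d} {F : Set (V d)}
    (hfin : ∀ S : Set (V d), IsCompact S → mv G S < ⊤) (hF : MeasurableSet F) {f g : V d → ℂ} (hf : FH Λ F f) (hg : FH Λ F g) :
    nn G F (fun z => f z + g z) ≤ 2 * (nn G F f + nn G F g) := by
  have h1 := ASAD_isq hfin hF hf
  have h2 := ASAD_isq hfin hF hg
  unfold nn
  rw [← integral_add h1 h2, ← integral_const_mul]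
  refine integral_mono_of_nonneg (Eventually.of_forall fun z => by positivity) ((h1.add h2).const_mul 2) (Eventually.of_forall fun z => ?_)
  show ‖f z + g z‖ ^ 2 ≤ 2 * (‖f z‖ ^ 2 + ‖g z‖ ^ 2)
  have h4 := norm_add_le (f z) (g z)
  have h5 := norm_nonneg (f z + g z)
  nlinarith [sq_nonneg (‖f z‖ - ‖g z‖)]

theorem ALST_nnmul {d : ℕ} (G : V d → V d →L[ℝ] V d) (F : Set (V d)) (f : V d → ℂ) (c : ℂ) (hc : ‖c‖ = 1) :
    nn G F (fun z => c * f z) = nn G F f := by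
  unfold nn
  congr 1
  funext z
  rw [norm_mul, hc, one_mul]

theorem ALST_nnsub {d : ℕ} {Γ : Type} [Group Γ] [MulAction Γ (V d)] {Λ : Subgroup Γ} {G : V d → V d →L[ℝ] V d} {F : Set (V d)}
    (hfin : ∀ S : Set (V d), IsCompact S → mv G S < ⊤) (hF : MeasurableSet F) {f g : V d → ℂ} (hf : FH Λ F f) (hg : FH Λ F g) :
    nn G F (fun z => f z - g z) ≤ 2 * (nn G F f + nn G F g) := by
  have h := ALST_nnadd hfin hF hf (ALST_FHmul hg (-1))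
  rw [ALST_nnmul G F g (-1) (by simp)] at h
  have e : (fun z => f z - g z) = fun z => f z + -1 * g z := by
    funext z
    ring
  rw [e]
  exact h

/-- the coefficients of the Laplacian are differentiable -/
theorem ALST_dif {d : ℕ} {G : V d → V d →L[ℝ] V d} (hd : ContDiff ℝ ∞ (dens G)) (hIG : ContDiff ℝ ∞ (IG G)) {φ : V d → ℂ}
    (hφ : ContDiff ℝ 2 φ) (i : Fin d) :
    Differentiable ℝ (fun y => ((dens G y : ℝ) : ℂ) * fderiv ℝ φ y ((G y).inverse (EuclideanSpace.single i (1 : ℝ)))) := by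
  have h1 : Differentiable ℝ (fun y => ((dens G y : ℝ) : ℂ)) := Complex.ofRealCLM.differentiable.comp (hd.differentiable (by simp))
  have h2 : Differentiable ℝ (fun y => fderiv ℝ φ y) := (hφ.fderiv_right (m := 1) (by norm_num)).differentiable (by norm_num)
  have h3 : Differentiable ℝ (fun y => IG G y (EuclideanSpace.single i (1 : ℝ))) := (hIG.differentiable (by simp)).clm_apply (differentiable_const _)
  exact h1.mul (h2.clm_apply h3)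

/-- the Laplacian of a difference -/
theorem ALST_lap {d : ℕ} {G : V d → V d →L[ℝ] V d} (hd : ContDiff ℝ ∞ (dens G)) (hIG : ContDiff ℝ ∞ (IG G)) {f g : V d → ℂ}
    (hf : ContDiff ℝ 2 f) (hg : ContDiff ℝ 2 g) (x : V d) : lap G (fun z => f z - g z) x = lap G f x - lap G g x := by
  unfold lap
  have h1 : ∀ i : Fin d, (fun y => ((dens G y : ℝ) : ℂ) * fderiv ℝ (fun z => f z - g z) y ((G y).inverse (EuclideanSpace.single i (1 : ℝ)))) =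
      fun y => ((dens G y : ℝ) : ℂ) * fderiv ℝ f y ((G y).inverse (EuclideanSpace.single i (1 : ℝ))) -
        ((dens G y : ℝ) : ℂ) * fderiv ℝ g y ((G y).inverse (EuclideanSpace.single i (1 : ℝ))) := by
    intro i
    funext y
    rw [fderiv_fun_sub (hf.differentiable (by norm_num) y) (hg.differentiable (by norm_num) y)]
    show ((dens G y : ℝ) : ℂ) * (fderiv ℝ f y _ - fderiv ℝ g y _) = _
    rw [mul_sub]
  have h2 : ∀ i : Fin d, fderiv ℝ (fun y => ((dens G y : ℝ) : ℂ) * fderiv ℝ (fun z => f z - g z) y ((G y).inverse (EuclideanSpace.single i (1 : ℝ)))) x (EuclideanSpace.single i (1 : ℝ)) =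
      fderiv ℝ (fun y => ((dens G y : ℝ) : ℂ) * fderiv ℝ f y ((G y).inverse (EuclideanSpace.single i (1 : ℝ)))) x (EuclideanSpace.single i (1 : ℝ)) -
        fderiv ℝ (fun y => ((dens G y : ℝ) : ℂ) * fderiv ℝ g y ((G y).inverse (EuclideanSpace.single i (1 : ℝ)))) x (EuclideanSpace.single i (1 : ℝ)) := by
    intro i
    rw [h1 i, fderiv_fun_sub (ALST_dif hd hIG hf i x) (ALST_dif hd hIG hg i x)]
    rfl
  rw [Finset.sum_congr rfl fun i _ => h2 i, Finset.sum_sub_distrib, mul_sub]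

theorem ALST_Hop {d : ℕ} {G : V d → V d →L[ℝ] V d} (hd : ContDiff ℝ ∞ (dens G)) (hIG : ContDiff ℝ ∞ (IG G)) {f g : V d → ℂ}
    (hf : ContDiff ℝ 2 f) (hg : ContDiff ℝ 2 g) (R : ℝ) (x : V d) : Hop G R (fun z => f z - g z) x = Hop G R f x - Hop G R g x := by
  unfold Hop
  rw [ALST_lap hd hIG hf hg]
  ring

/-- the numbers: the initial value -/
theorem ALST_n1 (R E a c ζ A X : ℝ) (hR : 1 ≤ R) (hA : 9 * ζ + c ≤ A) (hζ : 0 ≤ ζ) (hX : X = R ^ (E - 1 / 2 + A)) (n l o : ℝ)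
    (hn : n ≤ R ^ (E + c)) (hl : l ≤ R ^ (3 + E + c))
    (ho : o ≤ R ^ (1 / 2 + 9 * ζ) * (R ^ (-4 : ℝ) * l + R ^ (-1 : ℝ) * n)) (ha : a ≤ 8 * (R ^ (-(1 / 2) : ℝ) * n + o)) : a ≤ 24 * X := by
  have hR0 : 0 < R := by linarith
  have h1 : R ^ (-(1 / 2) : ℝ) * n ≤ X := by
    calc R ^ (-(1 / 2) : ℝ) * n ≤ R ^ (-(1 / 2) : ℝ) * R ^ (E + c) := mul_le_mul_of_nonneg_left hn (by positivity)
      _ = R ^ (-(1 / 2) + (E + c)) := (Real.rpow_add hR0 _ _).symm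
      _ ≤ X := by rw [hX]; exact Real.rpow_le_rpow_of_exponent_le hR (by linarith)
  have h2 : R ^ (1 / 2 + 9 * ζ) * (R ^ (-4 : ℝ) * l) ≤ X := by
    calc R ^ (1 / 2 + 9 * ζ) * (R ^ (-4 : ℝ) * l) ≤ R ^ (1 / 2 + 9 * ζ) * (R ^ (-4 : ℝ) * R ^ (3 + E + c)) := by gcongr
      _ = R ^ (1 / 2 + 9 * ζ + (-4 + (3 + E + c))) := by rw [← Real.rpow_add hR0, ← Real.rpow_add hR0]
      _ ≤ X := by rw [hX]; exact Real.rpow_le_rpow_of_exponent_le hR (by linarith)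
  have h3 : R ^ (1 / 2 + 9 * ζ) * (R ^ (-1 : ℝ) * n) ≤ X := by
    calc R ^ (1 / 2 + 9 * ζ) * (R ^ (-1 : ℝ) * n) ≤ R ^ (1 / 2 + 9 * ζ) * (R ^ (-1 : ℝ) * R ^ (E + c)) := by gcongr
      _ = R ^ (1 / 2 + 9 * ζ + (-1 + (E + c))) := by rw [← Real.rpow_add hR0, ← Real.rpow_add hR0]
      _ ≤ X := by rw [hX]; exact Real.rpow_le_rpow_of_exponent_le hR (by linarith)
  have h4 : R ^ (1 / 2 + 9 * ζ) * (R ^ (-4 : ℝ) * l + R ^ (-1 : ℝ) * n) = R ^ (1 / 2 + 9 * ζ) * (R ^ (-4 : ℝ) * l) + R ^ (1 / 2 + 9 * ζ) * (R ^ (-1 : ℝ) * n) := by ring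
  linarith

theorem ALST_n2 (R E a b x y c A X N : ℝ) (hR : 1 ≤ R) (hX : X = R ^ (E - 1 / 2 + A)) (hN : N ≤ 2 * R ^ (E + c))
    (hxy : 2 * (x + y) + c ≤ -(1 / 2) + A) (ha : a ≤ (R ^ x * R ^ y) ^ 2 * N) (hb : b = 2 * X) : a ≤ b := by
  have hR0 : 0 < R := by linarith
  have h1 : (R ^ x * R ^ y) ^ 2 = R ^ (2 * (x + y)) := by
    rw [← Real.rpow_add hR0, ← Real.rpow_natCast, ← Real.rpow_mul hR0.le]
    congr 1
    push_cast
    ring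
  rw [h1] at ha
  rw [hb]
  calc a ≤ R ^ (2 * (x + y)) * N := ha
    _ ≤ R ^ (2 * (x + y)) * (2 * R ^ (E + c)) := by gcongr
    _ = 2 * R ^ (2 * (x + y) + (E + c)) := by rw [Real.rpow_add hR0 (2 * (x + y)) (E + c)]; ring
    _ ≤ 2 * X := by
      rw [hX]
      exact mul_le_mul_of_nonneg_left (Real.rpow_le_rpow_of_exponent_le hR (by linarith)) (by norm_num)

theorem ALST_proof (hALWT : ALWT_stmt) (hAEND : AEND_stmt) (hAFDD : AFDD_stmt) (hAFBD : AFBD_stmt) (hAFMD : AFMD_stmt) (hAQAD : AQAD_stmt)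
    (hAELD : AELD_stmt) (hAQSD : AQSD_stmt) (hAFRD : AFRD_stmt) (hAMVI : AMVI_stmt) (hADMD : ADMD_stmt) (hASGF : ASGF_stmt)
    (hAHLD : AHLD_stmt) : ALST_stmt := by
  intro d Γ _ _ K k B r0 χ hFdK hPU
  obtain ⟨CW, hCW, HW⟩ := hALWT d Γ K k B (r0 + 1) hFdK
  obtain ⟨CF, hCF, HF⟩ := hAFBD d Γ K k B r0 hFdK
  obtain ⟨CM, hCM, HM⟩ := hAFMD d Γ K k B r0 χ hFdK hPU
  obtain ⟨CD, hCD, HD⟩ := hAFDD d Γ K k B r0 χ hFdK hPU
  obtain ⟨CR, hCR, HR⟩ := hAFRD d Γ K k B r0 hFdK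
  have hCM0 : 0 < CM := by linarith
  have hCF0 : 0 < CF := by linarith
  have hp0 : 0 ≤ CF * CM := by positivity
  obtain ⟨CC, hCC⟩ : ∃ CC : ℝ, CC = 16 * CM + 16 * (CF * CM) + CD + CW + 100 := ⟨_, rfl⟩
  have hCCW : CW ≤ CC := by rw [hCC]; linarith
  refine ⟨CC, by linarith, ?_⟩
  intro ch e ζ ζ1 ζ2 hch he0 hζ0 hζζ1 hζ12 hCe hCζ
  have hζ1 : 0 < ζ1 := lt_of_lt_of_le hζ0 hζζ1
  have hζ2 : 0 < ζ2 := lt_of_lt_of_le hζ1 hζ12
  have hsum : 16 * (CM * ζ2) + 16 * (CF * CM * ζ2) + CD * ζ2 + CW * ζ2 + 100 * ζ2 ≤ 1 := by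
    rw [hCC] at hCζ
    linarith
  have n1 : 0 < CM * ζ1 := by positivity
  have n1' : CM * ζ1 ≤ CM * ζ2 := mul_le_mul_of_nonneg_left hζ12 hCM0.le
  have n2 : 0 ≤ CF * (CM * ζ1) := by positivity
  have n2' : CF * (CM * ζ1) ≤ CF * CM * ζ2 := by
    rw [mul_assoc]
    exact mul_le_mul_of_nonneg_left n1' hCF0.le
  have n3 : CD * ζ1 ≤ CD * ζ2 := mul_le_mul_of_nonneg_left hζ12 (by linarith)
  have n4 : 0 < CW * ζ2 := by positivity
  have n5 : 0 ≤ CD * ζ2 := by positivity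
  have n6 : 0 < CM * ζ2 := by positivity
  have n7 : 0 ≤ CF * CM * ζ2 := by positivity
  have hζ28 : ζ2 ≤ 1 / 100 := by linarith
  obtain ⟨K1, R1, hR1, HF1⟩ := HF (CM * ζ1) n1 (by linarith)
  obtain ⟨R2, hR2, HM1⟩ := HM ch K1 ζ ζ1 2 hch hζ0 hζζ1 (by linarith)
  obtain ⟨R3, hR3, HD1⟩ := HD ch ζ ζ1 hch hζ0 hζζ1 (by linarith)
  obtain ⟨R4, hR4, HQ⟩ := hAQAD d Γ K k B r0 χ ch ζ hFdK hPU hch hζ0 (by linarith)
  obtain ⟨R5, hR5, HE⟩ := hAELD d Γ K k B r0 χ ch ζ hFdK hPU hch hζ0 (by linarith)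
  obtain ⟨R6, hR6, HS⟩ := hAQSD d Γ K k B r0 χ ch ζ hFdK hPU hch hζ0 (by linarith)
  obtain ⟨R7, hR7, HW1⟩ := HW ch e ζ2 hch he0 hζ2 ((mul_le_mul_of_nonneg_right hCCW he0).trans hCe) (by linarith)
  have h121 : (0 : ℝ) ≤ 121 ^ (1 / ζ2) := by positivity
  refine ⟨R1 + R2 + R3 + R4 + R5 + R6 + R7 + CR + 28 ^ 4 + 121 ^ (1 / ζ2), by linarith, ?_⟩
  intro R G Φ g q Y0 P0 hR hOK hq hEq hLag
  have hRpos : 0 < R := by linarith
  have hR1' : 1 ≤ R := by linarith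
  have h28 : (28 : ℝ) ^ 4 ≤ R := by linarith
  have h121R : (121 : ℝ) ≤ R ^ ζ2 := by
    have h1 : (121 : ℝ) ^ (1 / ζ2) ≤ R := by linarith
    calc (121 : ℝ) = (121 ^ (1 / ζ2)) ^ ζ2 := by
          rw [← Real.rpow_mul (by norm_num), one_div_mul_cancel hζ2.ne', Real.rpow_one]
      _ ≤ R ^ ζ2 := Real.rpow_le_rpow h121 h1 hζ2.le
  have hq28 : R ^ (-(1 / 4) : ℝ) ≤ 1 / 28 := by
    rw [Real.rpow_neg hRpos.le, ← one_div]
    apply one_div_le_one_div_of_le (by norm_num)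
    have h1 : (28 : ℝ) = ((28 : ℝ) ^ 4) ^ (1 / 4 : ℝ) := by
      rw [← Real.rpow_natCast, ← Real.rpow_mul (by norm_num)]
      norm_num
    rw [h1]
    exact Real.rpow_le_rpow (by norm_num) h28 (by norm_num)
  have hq0 : 0 < R ^ (-(1 / 4) : ℝ) := Real.rpow_pos_of_pos hRpos _
  have hE16 : |Ep G q| ≤ 1 / 16 := by linarith
  have hDm : Dm (⊥ : Subgroup Γ) (univ : Set (V d)) (univ : Set Γ) := Or.inr ⟨rfl, rfl, rfl⟩
  have hcls := hOK.cls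
  obtain ⟨-, hdens, -, -, hfin, -⟩ := hAMVI d Γ K k B G hFdK hcls
  obtain ⟨-, -, hms, hli, hgw, -⟩ := hADMD d Γ K k B G hFdK hcls
  obtain ⟨hGW, -, hvol⟩ := hgw r0 2 R
  have hfs : ∀ r : ℝ, (SG Γ d r).Finite := fun r => (hASGF d Γ K hFdK r 0).1
  obtain ⟨CH', -, HH⟩ := hAHLD d Γ K k B 1 0
  have hIG : ContDiff ℝ ∞ (IG G) := (HH G hFdK hcls).2.2.1
  obtain ⟨w1, w2, w3, ⟨bW, w4⟩, w5, w6, w7, w8⟩ := HW1 R G Φ g q Y0 P0 (by linarith) hOK hq (by linarith) hLag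
  have hbm : (fun z : V d => bm G ch ζ2 R (P0 * Y0⁻¹) q (g⁻¹ • z)) = fun z => bt G Φ ch ζ2 R Y0 P0 q 0 (g⁻¹ • z) :=
    funext fun z => (w3 _).symm
  rw [hbm]
  obtain ⟨φ, hφdef⟩ : ∃ φ : V d → ℂ, φ = fun z => bt G Φ ch ζ2 R Y0 P0 q 0 (g⁻¹ • z) := ⟨_, rfl⟩
  have h00 : (0 : ℝ) ∈ Icc (0 : ℝ) 1 := ⟨le_rfl, zero_le_one⟩
  obtain ⟨u1, u2, -, u4, -⟩ := w1 0 h00
  have w2' : nn G univ (fun z => lap G φ z + ((R ^ 2 * (1 + 2 * Ep G q) : ℝ) : ℂ) * φ z) ≤ R ^ (3 - (d : ℝ) / 2 + CW * ζ2) := by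
    rw [hφdef]
    exact w2
  rw [← hφdef] at u1 u2 u4 ⊢
  have hR0' : ∀ x : ℝ, 0 ≤ R ^ x := fun x => Real.rpow_nonneg hRpos.le x
  refine ⟨u1, u4.trans (Real.rpow_le_rpow_of_exponent_le hR1' ?_), ?_⟩
  · have := mul_le_mul_of_nonneg_right hCCW hζ2.le
    linarith
  obtain ⟨v, hvdef⟩ : ∃ v : YS Γ d → ℂ, v = QF G χ ch ζ R φ := ⟨_, rfl⟩
  rw [← hvdef]
  obtain ⟨s1, s2, -⟩ := (HS R G (by linarith) hcls).2.2.2.2.2.2 ⊥ univ univ hDm
  have hv : FP (⊥ : Subgroup Γ) univ v := by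
    rw [hvdef]
    exact (s1 φ u1).1
  -- the numbers
  obtain ⟨A, hA⟩ : ∃ A : ℝ, A = 2 * (CM * ζ2) + 2 * (CF * CM * ζ2) + CW * ζ2 + 9 * ζ2 := ⟨_, rfl⟩
  obtain ⟨X, hX⟩ : ∃ X : ℝ, X = R ^ (-((d : ℝ) / 2) - 1 / 2 + A) := ⟨_, rfl⟩
  have hX0 : 0 ≤ X := by rw [hX]; exact hR0' _
  have hd0 : 0 ≤ (d : ℝ) := Nat.cast_nonneg d
  have hnP : nP G r0 univ 2 R v ≤ 2 * R ^ (-((d : ℝ) / 2) + CW * ζ2) := by
    have k1 := ((HQ R G (by linarith) hcls ⊥ univ univ hDm).1 φ u1).1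
    rw [← hvdef] at k1
    refine k1.trans ?_
    have k2 := ALST_nn0 G univ φ
    nlinarith [hR0' (-((d : ℝ) / 2) + CW * ζ2)]
  have hab0 : |(0 : ℝ)| ≤ 1 := by rw [abs_zero]; exact zero_le_one
  have hM := fun (s : ℝ) (hs : |s| ≤ 1) => HM1 R s G Φ (by linarith) hOK hs
  have hM0 := hM 0 hab0
  -- the first term of the initial value
  have hY : nn G univ (fun z => Qs G r0 χ ch ζ R v z - φ z) ≤ 24 * X := by
    have k1 := ((HQ R G (by linarith) hcls ⊥ univ univ hDm).1 φ u1).2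
    have k2 := (HE R G (by linarith) hcls ⊥ univ univ hDm φ (Ep G q) u1 u2 hE16).2 2 (by linarith)
    have k3 := ENNReal.toReal_mono ENNReal.ofReal_ne_top k2
    have k4 := ALST_nn0 G univ φ
    have k5 := ALST_nn0 G univ (fun z => lap G φ z + ((R ^ 2 * (1 + 2 * Ep G q) : ℝ) : ℂ) * φ z)
    rw [ENNReal.toReal_ofReal (by have := hR0' (1 / 2 + 9 * ζ); have := hR0' (-4 : ℝ); have := hR0' (-1 : ℝ); positivity)] at k3
    rw [← hvdef] at k1 k3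
    refine ALST_n1 R (-((d : ℝ) / 2)) _ (CW * ζ2) ζ A X hR1' (by linarith) hζ0.le hX _ _ _ u4 ?_ k3 k1
    refine w2'.trans (le_of_eq ?_)
    ring_nf
  -- the second term of the initial value
  have hfr0 := HR K1 (CM * ζ1) (R ^ (-2 : ℝ)) R 0 G Φ (fun y w => fP G Φ χ ch ζ ζ1 R 0 y w - fG G χ ch ζ R y w) (by linarith) hOK n1 (by linarith)
    (hR0' _) hab0 hM0.2.2.2.1
  have hfrG := HR K1 (CM * ζ1) (R ^ (3 * (d : ℝ) / 4 + CM * ζ1)) R 0 G Φ (fG G χ ch ζ R) (by linarith) hOK n1 (by linarith) (hR0' _) hab0 hM0.2.2.1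
  have hfrP := HR K1 (CM * ζ1) (R ^ (3 * (d : ℝ) / 4 + CM * ζ1)) R 0 G Φ (fP G Φ χ ch ζ ζ1 R 0) (by linarith) hOK n1 (by linarith) (hR0' _) hab0 hM0.1
  have hFH0 : FH (⊥ : Subgroup Γ) univ (sF G r0 R (fun y w => fP G Φ χ ch ζ ζ1 R 0 y w - fG G χ ch ζ R y w) v) := (hfr0.2.2 ⊥ univ univ hDm).1 v hv
  have hQs : Qs G r0 χ ch ζ R v = sF G r0 R (fG G χ ch ζ R) v := by
    funext z
    unfold Qs sF
    simp only [hM0.2.2.2.2.2]
  have hZ : nn G univ (sF G r0 R (fun y w => fP G Φ χ ch ζ ζ1 R 0 y w - fG G χ ch ζ R y w) v) ≤ 2 * X := by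
    have k1 := (HF1 R (R ^ (-2 : ℝ)) 0 G Φ (fun y w => fP G Φ χ ch ζ ζ1 R 0 y w - fG G χ ch ζ R y w) (by linarith) hOK (hR0' _) hab0 hM0.2.2.2.1 ⊥ univ univ hDm).1 v hv
    exact ALST_n2 R (-((d : ℝ) / 2)) _ _ _ _ (CW * ζ2) A X _ hR1' hX hnP (by linarith) k1 rfl
  have hw0 : nn G univ (fun z => sF G r0 R (fP G Φ χ ch ζ ζ1 R 0) v z - φ z) ≤ 64 * X := by
    have h1 : (fun z => sF G r0 R (fP G Φ χ ch ζ ζ1 R 0) v z - φ z) = fun z =>
        sF G r0 R (fun y w => fP G Φ χ ch ζ ζ1 R 0 y w - fG G χ ch ζ R y w) v z + (Qs G r0 χ ch ζ R v z - φ z) := by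
      funext z
      have i1 := ASAD_int (C := CR) hfs hms hli hGW hvol hM0.2.2.1 (hR0' _) (fun y hy z => ⟨(hfrG.1 y hy z).1, fun h => ((hfrG.1 y hy z).2 h).1⟩) hv z
      have i2 := ASAD_int (C := CR) hfs hms hli hGW hvol hM0.1 (hR0' _) (fun y hy z => ⟨(hfrP.1 y hy z).1, fun h => ((hfrP.1 y hy z).2 h).1⟩) hv z
      have h2 : sF G r0 R (fun y w => fP G Φ χ ch ζ ζ1 R 0 y w - fG G χ ch ζ R y w) v z =
          sF G r0 R (fP G Φ χ ch ζ ζ1 R 0) v z - Qs G r0 χ ch ζ R v z := by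
        rw [hQs]
        unfold sF
        rw [← integral_sub i2 i1]
        refine integral_congr_ae (Eventually.of_forall fun y => ?_)
        show v y * pF (fun y w => fP G Φ χ ch ζ ζ1 R 0 y w - fG G χ ch ζ R y w) y z = v y * pF (fP G Φ χ ch ζ ζ1 R 0) y z - v y * pF (fG G χ ch ζ R) y z
        unfold pF
        ring
      rw [h2]
      ring
    rw [h1]
    refine (ALST_nnadd hfin MeasurableSet.univ hFH0 (ALST_FHsub (s2 v hv) u1)).trans ?_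
    linarith
  -- the energy estimate
  obtain ⟨b, g1, g2, g3, g4, g5, g6⟩ := HD1 R G Φ (by linarith) hOK ⊥ univ univ hDm v hv
  obtain ⟨S, hS⟩ : ∃ S : ℝ, S = R ^ ((-((d : ℝ) / 2) - 1 / 2 + A) / 2) := ⟨_, rfl⟩
  have hS0 : 0 ≤ S := by rw [hS]; exact hR0' _
  have hS2 : S ^ 2 = X := by
    rw [hS, hX, ← Real.rpow_natCast, ← Real.rpow_mul hRpos.le]
    congr 1
    push_cast
    ring
  have hen := hAEND d Γ K k B G hFdK hcls ⊥ univ univ hDm R 1 (3 * S) (max b bW)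
    (fun s z => sF G r0 R (fP G Φ χ ch ζ ζ1 R s) v z - bt G Φ ch ζ2 R Y0 P0 q s (g⁻¹ • z))
    (fun s z => -Complex.I * (sF G r0 R (fE G Φ χ ch ζ ζ1 R s) v z - Eb G Φ ch ζ2 R Y0 P0 q s (g⁻¹ • z)))
    hR1' zero_le_one (by positivity) ?_ ?_ ?_ ?_ ?_ ?_
  rotate_left
  · -- functions
    intro s hs
    obtain ⟨a1, a2, a3⟩ := g1 s hs
    obtain ⟨b1, b2, b3, -, b5⟩ := w1 s hs
    have hs' : |s| ≤ 1 := by rw [abs_of_nonneg hs.1]; exact hs.2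
    refine ⟨ALST_FHsub a1 b1, a2.sub b2, ALST_FHmul (ALST_FHsub a3 b3) _, ?_⟩
    rw [ALST_nnmul _ _ _ _ (by simp)]
    refine (ALST_nnsub hfin MeasurableSet.univ a3 b3).trans ?_
    have k1 := (HF1 R (R ^ (3 * (d : ℝ) / 4 - 1 / 2 + CM * ζ1)) s G Φ (fE G Φ χ ch ζ ζ1 R s) (by linarith) hOK (hR0' _) hs' (hM s hs').2.1 ⊥ univ univ hDm).1 v hv
    have k2 := ALST_n2 R (-((d : ℝ) / 2)) _ _ _ _ (CW * ζ2) A X _ hR1' hX hnP (by linarith) k1 rfl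
    have k3 : nn G univ (fun z => Eb G Φ ch ζ2 R Y0 P0 q s (g⁻¹ • z)) ≤ X := by
      refine b5.trans ?_
      rw [hX]
      exact Real.rpow_le_rpow_of_exponent_le hR1' (by linarith)
    have k4 : (3 * S) ^ 2 = 9 * X := by rw [mul_pow, hS2]; norm_num
    rw [k4]
    linarith
  · -- supports
    intro s hs z _ hz
    by_cases h6 : sF G r0 R (fP G Φ χ ch ζ ζ1 R s) v z ≠ 0 ∨ sF G r0 R (fE G Φ χ ch ζ ζ1 R s) v z ≠ 0
    · exact (g2 s hs z (mem_univ _) h6).trans (le_max_left _ _)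
    · push Not at h6
      refine (w4 s hs z ?_).trans (le_max_right _ _)
      rcases hz with hz | hz
      · left
        intro h8
        apply hz
        show sF G r0 R (fP G Φ χ ch ζ ζ1 R s) v z - bt G Φ ch ζ2 R Y0 P0 q s (g⁻¹ • z) = 0
        rw [h6.1, h8, sub_zero]
      · right
        intro h8
        apply hz
        show -Complex.I * (sF G r0 R (fE G Φ χ ch ζ ζ1 R s) v z - Eb G Φ ch ζ2 R Y0 P0 q s (g⁻¹ • z)) = 0
        rw [h6.2, h8, sub_zero, mul_zero]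
  · -- continuity of w
    exact g3.sub w5.continuousOn
  · -- continuity of the Laplacian
    refine (g4.sub w6.continuousOn).congr fun x hx => ?_
    exact ALST_lap hdens hIG (g1 x.1 hx.1).2.1 (w1 x.1 hx.1).2.1 x.2
  · -- continuity of e
    exact (continuousOn_const (c := -Complex.I) (s := Icc (0 : ℝ) 1 ×ˢ (univ : Set (V d)))).mul (g5.sub w7.continuousOn)
  · -- the equation
    intro s hs z
    have k1 := (g6 s hs z).sub (w8 s z)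
    have k2 := ALST_Hop hdens hIG (g1 s hs).2.1 (w1 s hs).2.1 R z
    have k3 : -(Complex.I * Hop G R (fun z => sF G r0 R (fP G Φ χ ch ζ ζ1 R s) v z - bt G Φ ch ζ2 R Y0 P0 q s (g⁻¹ • z)) z) +
        -Complex.I * (sF G r0 R (fE G Φ χ ch ζ ζ1 R s) v z - Eb G Φ ch ζ2 R Y0 P0 q s (g⁻¹ • z)) =
        -(Complex.I * Hop G R (sF G r0 R (fP G Φ χ ch ζ ζ1 R s) v) z) + -(Complex.I * sF G r0 R (fE G Φ χ ch ζ ζ1 R s) v z) -
        (-(Complex.I * Hop G R (fun z => bt G Φ ch ζ2 R Y0 P0 q s (g⁻¹ • z)) z) + -(Complex.I * Eb G Φ ch ζ2 R Y0 P0 q s (g⁻¹ • z))) := by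
      rw [k2]
      ring
    show HasDerivAt (fun s => sF G r0 R (fP G Φ χ ch ζ ζ1 R s) v z - bt G Φ ch ζ2 R Y0 P0 q s (g⁻¹ • z)) _ s
    rw [k3]
    exact k1
  -- conclusion
  have hfin1 : Real.sqrt (nn G univ (fun z => sF G r0 R (fP G Φ χ ch ζ ζ1 R 1) v z - bt G Φ ch ζ2 R Y0 P0 q 1 (g⁻¹ • z))) ≤ 11 * S := by
    refine hen.trans ?_
    have h1 : Real.sqrt (nn G univ (fun z => sF G r0 R (fP G Φ χ ch ζ ζ1 R 0) v z - bt G Φ ch ζ2 R Y0 P0 q 0 (g⁻¹ • z))) ≤ 8 * S := by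
      rw [← Real.sqrt_sq (by positivity : 0 ≤ 8 * S)]
      refine Real.sqrt_le_sqrt ?_
      rw [mul_pow, hS2]
      rw [hφdef] at hw0
      linarith
    linarith
  have hres := pow_le_pow_left₀ (Real.sqrt_nonneg _) hfin1 2
  rw [Real.sq_sqrt (ALST_nn0 _ _ _)] at hres
  refine hres.trans ?_
  rw [mul_pow, hS2, hX]
  calc (11 : ℝ) ^ 2 * R ^ (-((d : ℝ) / 2) - 1 / 2 + A) = 121 * R ^ (-((d : ℝ) / 2) - 1 / 2 + A) := by norm_num
    _ ≤ R ^ ζ2 * R ^ (-((d : ℝ) / 2) - 1 / 2 + A) := mul_le_mul_of_nonneg_right h121R (hR0' _)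
    _ = R ^ (ζ2 + (-((d : ℝ) / 2) - 1 / 2 + A)) := (Real.rpow_add hRpos _ _).symm
    _ ≤ R ^ (-((d : ℝ) / 2) - 1 / 2 + CC * ζ2) := by
      refine Real.rpow_le_rpow_of_exponent_le hR1' ?_
      rw [hA, hCC]
      linarith

end

end Pool.Agent.VD
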